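import Pool.Agent.Helper16.OL.Time

/-!
# The `C^r` closing lemma for diffeomorphisms which are hyperbolic transversally to oriented leaves

`V n = ℝⁿ`, `DiffM n N r = Diff^r(N)`, `strongTop n N r` is its strong (Whitney) `C^r` topology (the usual
one, `N` being compact), `IsRec F z`: `z` is recurrent, i.e. `m ↦ F^m z` is not a homeomorphism of `ℤ` onto
its image, `IsPer G z`: `z` is periodic (`Pool/Agent/H718R2/G0.lean`). `ChainRecOn F K z`: `z` is chain
recurrent for the restriction of `F` to `K` (`Pool/Agent/R774/ClStmt.lean`), `NonWand F z`: `z` is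
nonwandering (`Pool/Agent/W564/SC/Defs.lean`).

`HypLeaves L F Φ K e B` (`Pool/Agent/Helper16/OL/Main.lean`), with `L ⊆ {0, …, k-1}`:
* `Φ` is a smooth action of `ℝᵏ` on `N`; `K` is closed, `F K ⊆ K`, and `Φ` is locally free on `K`;
* for all `y` in a neighbourhood of `K` the coordinates `i ∉ L` act as circles (`Φ v y = y` if `v i = 0` for
  `i ∈ L` and `v i ∈ ℤ` for `i ∉ L`), and `F` maps the orbit of `y` to the orbit of `F y` by a `LeafMap`:
  `F (Φ t y) = Φ (τ t) (F y)` where `τ` depends on `y`, `(τ t)_i = g_i (t_i)` for `i ∈ L` with an arbitrary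
  continuous monotone `g_i`, `g_i 0 = 0`, and `(τ t)_i - t_i` depends only on the `t_j`, `j < i`, for
  `i ∉ L` (`Pool/Agent/Helper16/OL/Pure.lean`);
* on `K` the map `F` is hyperbolic transversally to the orbits: the quadratic forms
  `Q_x(v) = B_x (De v, De v)` (of any signature) do not change in the direction of the orbits and increase
  strictly under `DF` on all other vectors.

Nothing is required of `F` outside a neighbourhood of `K`. No domination is required: along the leaves `F`
may contract and expand arbitrarily strongly.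
-/

set_option autoImplicit false

open scoped Manifold ContDiff Topology

namespace Pool.Agent.Results.MP_1e8d1a_an.OrientedLeaves

open Pool.Agent.H718R2.G Pool.Agent.R774.ClStmt Pool.Agent.W564.SC Pool.Agent.Helper16.OL

/-- `z` is chain recurrent in a closed set on which `F` is hyperbolic transversally to oriented leaves. -/
def LeafChain (n : ℕ) (N : Type*) [TopologicalSpace N] [ChartedSpace (V n) N] (F : N → N) (z : N) :
    Prop :=
  ∃ (k m : ℕ) (L : Set (Fin k)) (Φ : V k → N → N) (K : Set N) (e : N → V m)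
    (B : N → V m →L[ℝ] V m →L[ℝ] ℝ), HypLeaves (n := n) L F Φ K e B ∧ ChainRecOn F K z

/-- Let `N` be a closed manifold, `1 ≤ r ≤ ∞`, `F ∈ Diff^r(N)` and `z ∈ N`. Suppose that arbitrarily
`C^r`-close to `F` there are diffeomorphisms `F'` (for example `F' = F`) for which `z` is chain recurrent in
a closed set on which `F'` is hyperbolic transversally to oriented leaves. Then the conclusion of the `C^r`
closing lemma holds for `F` at `z`. -/
theorem result {n : ℕ} {N : Type*} [TopologicalSpace N] [T2Space N] [CompactSpace N]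
    [ChartedSpace (V n) N] [IsManifold (𝓡 n) ∞ N] (r : ℕ∞) (hr : 1 ≤ r) (F : DiffM n N r) (z : N)
    (h : ∀ U : Set (DiffM n N r), IsOpen[strongTop n N r] U → F ∈ U →
      ∃ F' : DiffM n N r, F' ∈ U ∧ LeafChain n N F' z) :
    ∀ U : Set (DiffM n N r), IsOpen[strongTop n N r] U → F ∈ U → ∃ G ∈ U, IsPer G z := by
  intro U hU hFU
  obtain ⟨F', hF', k, m, L, Φ, K, e, B, hyp, hz⟩ := h U hU hFU
  exact closable r hr F' hyp hz U hU hF'

/-- Special case: all recurrent points in an invariant closed set on which `F` is hyperbolic transversally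
to oriented leaves. -/
theorem recurrent {k m n : ℕ} {N : Type*} [TopologicalSpace N] [T2Space N] [CompactSpace N]
    [ChartedSpace (V n) N] [IsManifold (𝓡 n) ∞ N] (r : ℕ∞) (hr : 1 ≤ r) (F : DiffM n N r)
    {L : Set (Fin k)} {Φ : V k → N → N} {K : Set N} {e : N → V m}
    {B : N → V m →L[ℝ] V m →L[ℝ] ℝ} (h : HypLeaves (n := n) L F Φ K e B)
    (hinv : ∀ x ∈ K, F.symm x ∈ K) (z : N) (hzK : z ∈ K) (hz : IsRec F.toHomeomorph z) :
    ∀ U : Set (DiffM n N r), IsOpen[strongTop n N r] U → F ∈ U → ∃ G ∈ U, IsPer G z :=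
  closable r hr F h (chainRecOn_of_isRec F.toHomeomorph h.inv hinv hzK hz)

/-- Special case: all nonwandering points, if `F` is on all of `N` hyperbolic transversally to oriented
leaves. -/
theorem nonwandering {k m n : ℕ} {N : Type*} [TopologicalSpace N] [T2Space N] [CompactSpace N]
    [ChartedSpace (V n) N] [IsManifold (𝓡 n) ∞ N] (r : ℕ∞) (hr : 1 ≤ r) (F : DiffM n N r)
    {L : Set (Fin k)} {Φ : V k → N → N} {e : N → V m}
    {B : N → V m →L[ℝ] V m →L[ℝ] ℝ} (h : HypLeaves (n := n) L F Φ Set.univ e B)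
    (z : N) (hz : NonWand F z) :
    ∀ U : Set (DiffM n N r), IsOpen[strongTop n N r] U → F ∈ U → ∃ G ∈ U, IsPer G z :=
  closable r hr F h (chainRecOn_univ_of_nonWand F.continuous hz)

/-- Special case: `ψ` is a smooth flow (an action of `ℝ = V 1`) on `N`, `K` is a hyperbolic set of `ψ`
without fixed points (for instance `K = N` and `ψ` is an Anosov flow), and `F y = ψ_{α(y)}(y)` near `K`,
where `α` is of class `C¹` and positive on `K`. -/
theorem time_map {m n : ℕ} {N : Type*} [TopologicalSpace N] [T2Space N] [CompactSpace N]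
    [ChartedSpace (V n) N] [IsManifold (𝓡 n) ∞ N] (r : ℕ∞) (hr : 1 ≤ r) (F : DiffM n N r)
    {ψ : V 1 → N → N} {K : Set N} {e : N → V m} {B : N → V m →L[ℝ] V m →L[ℝ] ℝ}
    (h : HypFlow (n := n) ψ K e B) {α : N → V 1} (hα : ContMDiff (𝓡 n) (𝓡 1) 1 α)
    (hpos : ∀ x ∈ K, 0 < α x 0) {O : Set N} (hO : IsOpen O) (hKO : K ⊆ O)
    (hOψ : ∀ t, ∀ y ∈ O, ψ t y ∈ O) (hF : ∀ y ∈ O, F y = ψ (α y) y)
    (z : N) (hz : ChainRecOn F K z) :
    ∀ U : Set (DiffM n N r), IsOpen[strongTop n N r] U → F ∈ U → ∃ G ∈ U, IsPer G z :=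
  closable r hr F (hypLeaves_time h hα hpos F.injective hO hKO hOψ hF) hz

end Pool.Agent.Results.MP_1e8d1a_an.OrientedLeaves
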