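import Pool.Agent.Helper16.OL.G5

/-!
# `C^r` genericity of the density of periodic points for diffeomorphisms preserving the oriented orbits of a flow

`V n = ℝⁿ`, `DiffM n N r = Diff^r(N)`, `strongTop n N r` is its strong (Whitney) `C^r` topology (the usual
one, `N` being compact) (`Pool/Agent/H718R2/G0.lean`); `Omega`, `Per` (`Pool/Agent/TH80/OMS/Defs.lean`,
`SymDefs.lean`): nonwandering set, periodic points; `CR F` is the chain recurrent set
(`Pool/Agent/R774/OS2.lean`). `IsAction 1 n N ψ`: `ψ` is a smooth flow on `N` (an action of `ℝ = V 1`),
`orb ψ y s` is the tangent vector at `y` of `t ↦ ψ (t s) y` (`Pool/Agent/R774/ClStmt.lean`).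

`FlowHyp ψ F` (`Pool/Agent/Helper16/OL/G3.lean`):
* `F` maps the orbits of `ψ` to orbits of `ψ`, preserving their orientation:
  `F (ψ t y) = ψ (g t) (F y)` with a continuous monotone `g : ℝ → ℝ`, `g 0 = 0`, which depends on `y`, and
  `DF` maps the vectors tangent to the orbits to such vectors;
* on its chain recurrent set `F` is hyperbolic transversally to the orbits: for some quadratic forms
  `Q_x(v) = B_x (De v, De v)` (of any signature), which near `CR F` do not change in the direction of the
  orbits, `Q` increases strictly under `DF` on all vectors at the points of `CR F` which are not tangent to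
  the orbits.
No domination is required: along the orbits `F` may contract and expand arbitrarily strongly.
-/

set_option autoImplicit false

open scoped Manifold ContDiff Topology

namespace Pool.Agent.Results.MP_1e8d1a_an.OrientedOrbitsGeneric

open Pool.Agent.H718R2.G Pool.Agent.R774.ClStmt Pool.Agent.R774.OS Pool.Agent.TH80.OMS
open Pool.Agent.Helper16.OL

/-- The maps with the property `P` are residual in the space of the maps with the property `H`: there are
open sets `R 0, R 1, …` of `Diff^r(N)` such that every `R j ∩ H` is dense in `H`, and all `F ∈ H` which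
belong to all `R j` have the property `P`. -/
def GenericIn (n : ℕ) (N : Type) [TopologicalSpace N] [ChartedSpace (V n) N] (r : ℕ∞)
    (H P : (N → N) → Prop) : Prop :=
  ∃ R : ℕ → Set (DiffM n N r), (∀ j, IsOpen[strongTop n N r] (R j)) ∧
    (∀ j, ∀ F : DiffM n N r, H F → ∀ U : Set (DiffM n N r), IsOpen[strongTop n N r] U → F ∈ U →
      ∃ G ∈ U, G ∈ R j ∧ H G) ∧
    ∀ F : DiffM n N r, H F → (∀ j, F ∈ R j) → P F

/-- The chain recurrent set and the nonwandering set of `F` are both equal to the closure of the set of the
periodic points of `F`. -/
def PerDense (N : Type) [TopologicalSpace N] (F : N → N) : Prop :=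
  CR F = closure (Per F) ∧ Omega F = closure (Per F)

/-- `ψ` is a smooth flow on `N` without fixed points. -/
def FreeFlow (n : ℕ) (N : Type) [TopologicalSpace N] [ChartedSpace (V n) N] (ψ : V 1 → N → N) : Prop :=
  IsAction 1 n N ψ ∧ ∀ (y : N) (s : V 1), orb (n := n) ψ y s = 0 → s = 0

/-- Let `N` be a closed manifold, `1 ≤ r ≤ ∞`, and let `ψ` be a smooth flow on `N` without fixed points. Let
`H` be the space of all `F ∈ Diff^r(N)` which map the orbits of `ψ` to orbits, preserving their orientation,
and are hyperbolic transversally to the orbits on their chain recurrent sets. For generic `F ∈ H` the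
periodic points are dense in the nonwandering set, and even in the chain recurrent set. -/
theorem result {n : ℕ} {N : Type} [TopologicalSpace N] [T2Space N] [CompactSpace N]
    [ChartedSpace (V n) N] [IsManifold (𝓡 n) ∞ N] (r : ℕ∞) (hr : 1 ≤ r) {ψ : V 1 → N → N}
    (hψ : FreeFlow n N ψ) : GenericIn n N r (FlowHyp (n := n) ψ) (PerDense N) :=
  generic r hr hψ.1 hψ.2

end Pool.Agent.Results.MP_1e8d1a_an.OrientedOrbitsGeneric
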